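import Pool.Agent.Helper94.KC.GoalsC

/-!
# Packet KC-CN2: an even set of edges which does not bound contains a cycle which does not bound
-/

set_option autoImplicit false

namespace Pool.Agent.Helper28.KC

open scoped Classical
open Finset Pool.Agent.Helper94.KC

theorem bounds_empty {V : Type} [Fintype V] (T : Finset (Finset V)) : Bounds T ∅ := by
  refine ⟨∅, empty_subset _, ?_⟩
  ext e
  simp [bd]

theorem bounds_symmDiff {V : Type} [Fintype V] {T z z' : Finset (Finset V)}
    (hadd : ∀ D D', bd T (symmDiff D D') = symmDiff (bd T D) (bd T D'))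
    (h : Bounds T z) (h' : Bounds T z') : Bounds T (symmDiff z z') := by
  obtain ⟨D, hD, hz⟩ := h
  obtain ⟨D', hD', hz'⟩ := h'
  refine ⟨symmDiff D D', ?_, by rw [hadd, hz, hz']⟩
  intro t ht
  rcases Finset.mem_symmDiff.1 ht with h1 | h1
  · exact hD h1.1
  · exact hD' h1.1

theorem cn2 (hEV : StmtEV) (hCY : StmtCY) : StmtCN2 := by
  intro V _ T hT
  obtain ⟨hadd, hev, -, hcyc, -, -⟩ := hEV V T hT
  have key : ∀ n : ℕ, ∀ z : Finset (Finset V), z.card = n → z ⊆ ed T → Even2 z → ¬ Bounds T z →
      ∃ (x : V) (w : (sk T).Walk x x), w.IsCycle ∧ wed w ⊆ z ∧ ¬ Bounds T (wed w) := by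
    intro n
    induction n using Nat.strong_induction_on with
    | _ n ih =>
      intro z hzn hz hz2 hzb
      have hne : z.Nonempty := by
        rw [Finset.nonempty_iff_ne_empty]
        rintro rfl
        exact hzb (bounds_empty T)
      obtain ⟨x, w, hw, hwz⟩ := hCY V T hT z hz hz2 hne
      by_cases hwb : Bounds T (wed w)
      · obtain ⟨hw2, hwc, hwe⟩ := hcyc x w hw
        have hpos : 0 < (wed w).card := by
          rw [hwc]
          have := hw.three_le_length
          omega
        have hsd : symmDiff z (wed w) = z \ wed w := by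
          ext e
          rw [Finset.mem_symmDiff, Finset.mem_sdiff]
          constructor
          · rintro (h | h)
            · exact h
            · exact absurd (hwz h.1) h.2
          · intro h
            exact Or.inl h
        have hcard : (symmDiff z (wed w)).card < n := by
          rw [hsd, Finset.card_sdiff_of_subset hwz, ← hzn]
          have := Finset.card_le_card hwz
          omega
        have hsub : symmDiff z (wed w) ⊆ z := by
          rw [hsd]
          exact Finset.sdiff_subset
        have hnb : ¬ Bounds T (symmDiff z (wed w)) := by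
          intro h
          have h1 := bounds_symmDiff hadd h hwb
          rw [symmDiff_symmDiff_cancel_right] at h1
          exact hzb h1
        obtain ⟨y, w', hc', hs', hb'⟩ := ih _ hcard _ rfl (hsub.trans hz) (hev _ _ hz2 hw2) hnb
        exact ⟨y, w', hc', hs'.trans hsub, hb'⟩
      · exact ⟨x, w, hw, hwz, hwb⟩
  intro z hz hz2 hzb
  exact key _ z rfl hz hz2 hzb

end Pool.Agent.Helper28.KC
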