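import Pool.Agent.Helper69.KC.Base

/-!
Packet A1 of MP_ec852d_co: nearly straight drawings with parallel copies.
-/

set_option autoImplicit false

namespace Pool.Agent.Helper69.KC

open MGraph

/-- The bent segment from `u` to `v`. -/
noncomputable def bend (u v : ℤ × ℤ) (δ t : ℝ) : ℂ :=
  ((u.1 + t * (v.1 - u.1) - δ * (t * (1 - t)) * (v.2 - u.2) : ℝ) : ℂ) +
    ((u.2 + t * (v.2 - u.2) + δ * (t * (1 - t)) * (v.1 - u.1) : ℝ) : ℂ) * Complex.I

lemma bend_re (u v : ℤ × ℤ) (δ t : ℝ) :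
    (bend u v δ t).re = u.1 + t * (v.1 - u.1) - δ * (t * (1 - t)) * (v.2 - u.2) := by
  unfold bend
  simp only [Complex.add_re, Complex.ofReal_re, Complex.mul_re, Complex.I_re, mul_zero,
    Complex.ofReal_im, Complex.I_im, mul_one, sub_zero, add_zero]

lemma bend_im (u v : ℤ × ℤ) (δ t : ℝ) :
    (bend u v δ t).im = u.2 + t * (v.2 - u.2) + δ * (t * (1 - t)) * (v.1 - u.1) := by
  unfold bend
  simp only [Complex.add_im, Complex.ofReal_im, Complex.mul_im, Complex.I_re, mul_zero,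
    Complex.ofReal_re, Complex.I_im, mul_one, zero_add, add_zero]

lemma bend_continuous (u v : ℤ × ℤ) (δ : ℝ) : Continuous (bend u v δ) := by
  unfold bend
  fun_prop

/-- The complex point of an integer vector. -/
noncomputable def pt (u : ℤ × ℤ) : ℂ := ((u.1 : ℝ) : ℂ) + ((u.2 : ℝ) : ℂ) * Complex.I

lemma pt_re (u : ℤ × ℤ) : (pt u).re = u.1 := by
  unfold pt
  simp only [Complex.add_re, Complex.ofReal_re, Complex.mul_re, Complex.I_re, mul_zero,
    Complex.ofReal_im, Complex.I_im, mul_one, sub_zero, add_zero]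

lemma pt_im (u : ℤ × ℤ) : (pt u).im = u.2 := by
  unfold pt
  simp only [Complex.add_im, Complex.ofReal_im, Complex.mul_im, Complex.I_re, mul_zero,
    Complex.ofReal_re, Complex.I_im, mul_one, zero_add, add_zero]

lemma bend_zero (u v : ℤ × ℤ) (δ : ℝ) : bend u v δ 0 = pt u := by
  apply Complex.ext
  · rw [bend_re, pt_re]; ring
  · rw [bend_im, pt_im]; ring

lemma bend_one (u v : ℤ × ℤ) (δ : ℝ) : bend u v δ 1 = pt v := by
  apply Complex.ext
  · rw [bend_re, pt_re]; ring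
  · rw [bend_im, pt_im]; ring

lemma pt_injective : Function.Injective pt := by
  intro a b h
  have h1 := congrArg Complex.re h
  have h2 := congrArg Complex.im h
  rw [pt_re, pt_re] at h1
  rw [pt_im, pt_im] at h2
  exact Prod.ext (by exact_mod_cast h1) (by exact_mod_cast h2)

/-- Squared length of the segment. -/
noncomputable def len2 (u v : ℤ × ℤ) : ℝ :=
  ((v.1 : ℝ) - u.1) ^ 2 + ((v.2 : ℝ) - u.2) ^ 2

lemma len2_pos {u v : ℤ × ℤ} (h : u ≠ v) : 0 < len2 u v := by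
  unfold len2
  by_contra hcon
  push Not at hcon
  have h1 : ((v.1 : ℝ) - u.1) ^ 2 = 0 := by nlinarith [sq_nonneg ((v.1 : ℝ) - u.1), sq_nonneg ((v.2 : ℝ) - u.2)]
  have h2 : ((v.2 : ℝ) - u.2) ^ 2 = 0 := by nlinarith [sq_nonneg ((v.1 : ℝ) - u.1), sq_nonneg ((v.2 : ℝ) - u.2)]
  have h3 : (v.1 : ℝ) = u.1 := by nlinarith [pow_eq_zero_iff (two_ne_zero) |>.1 h1]
  have h4 : (v.2 : ℝ) = u.2 := by nlinarith [pow_eq_zero_iff (two_ne_zero) |>.1 h2]
  exact h (Prod.ext (by exact_mod_cast h3.symm) (by exact_mod_cast h4.symm))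

/-- Copies of one edge. -/
lemma bend_same {u v : ℤ × ℤ} (h : u ≠ v) {δ δ' t t' : ℝ} (he : bend u v δ t = bend u v δ' t') :
    t = t' ∧ (δ - δ') * (t * (1 - t)) = 0 := by
  have h1 := congrArg Complex.re he
  have h2 := congrArg Complex.im he
  rw [bend_re, bend_re] at h1
  rw [bend_im, bend_im] at h2
  have hl := len2_pos h
  have e1 : (t - t') * len2 u v = 0 := by
    unfold len2
    linear_combination ((v.1 : ℝ) - u.1) * h1 + ((v.2 : ℝ) - u.2) * h2
  have e2 : t = t' := by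
    rcases mul_eq_zero.1 e1 with h | h
    · linarith
    · exact absurd h hl.ne'
  subst e2
  refine ⟨rfl, ?_⟩
  have e3 : ((δ - δ') * (t * (1 - t))) * len2 u v = 0 := by
    unfold len2
    linear_combination (-((v.2 : ℝ) - u.2)) * h1 + ((v.1 : ℝ) - u.1) * h2
  rcases mul_eq_zero.1 e3 with h | h
  · exact h
  · exact absurd h hl.ne'

lemma bend_cross_self (u v : ℤ × ℤ) (δ t : ℝ) :
    ((v.1 : ℝ) - u.1) * ((bend u v δ t).im - u.2) - ((bend u v δ t).re - u.1) * ((v.2 : ℝ) - u.2) =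
      δ * (t * (1 - t)) * len2 u v := by
  rw [bend_re, bend_im]
  unfold len2
  ring

lemma bend_cross (u v x y : ℤ × ℤ) (δ t : ℝ) :
    ((v.1 : ℝ) - u.1) * ((bend x y δ t).im - u.2) - ((bend x y δ t).re - u.1) * ((v.2 : ℝ) - u.2) =
      (1 - t) * (det3 u v x : ℝ) + t * (det3 u v y : ℝ) +
        δ * (t * (1 - t)) * (((v.1 : ℝ) - u.1) * ((y.1 : ℝ) - x.1) +
          ((v.2 : ℝ) - u.2) * ((y.2 : ℝ) - x.2)) := by
  rw [bend_re, bend_im]
  unfold det3
  push_cast
  ring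

lemma quarter {t : ℝ} (h0 : 0 ≤ t) (h1 : t ≤ 1) : 0 ≤ t * (1 - t) ∧ t * (1 - t) ≤ 1 / 4 := by
  constructor
  · exact mul_nonneg h0 (by linarith)
  · nlinarith [sq_nonneg (t - 1 / 2)]

lemma small_mul {K δ q L : ℝ} (_hK : 1 ≤ K) (hδ0 : 0 ≤ δ) (hδ : δ * K ≤ 1 / 4) (hq0 : 0 ≤ q)
    (hq : q ≤ 1 / 4) (hL : |L| ≤ K) : |δ * q * L| ≤ 1 / 16 := by
  rw [abs_mul, abs_mul, abs_of_nonneg hδ0, abs_of_nonneg hq0]
  have h1 : δ * q * |L| ≤ δ * q * K := mul_le_mul_of_nonneg_left hL (mul_nonneg hδ0 hq0)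
  have h2 : δ * q * K = (δ * K) * q := by ring
  have h3 : (δ * K) * q ≤ 1 / 4 * (1 / 4) :=
    mul_le_mul hδ hq hq0 (by norm_num)
  linarith

lemma dot_le {u v x y : ℤ × ℤ} {K : ℝ} (h1 : len2 u v ≤ K) (h2 : len2 x y ≤ K) :
    |((v.1 : ℝ) - u.1) * ((y.1 : ℝ) - x.1) + ((v.2 : ℝ) - u.2) * ((y.2 : ℝ) - x.2)| ≤ K := by
  unfold len2 at h1 h2
  rw [abs_le]
  constructor
  · nlinarith [sq_nonneg (((v.1 : ℝ) - u.1) + ((y.1 : ℝ) - x.1)),
      sq_nonneg (((v.2 : ℝ) - u.2) + ((y.2 : ℝ) - x.2))]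
  · nlinarith [sq_nonneg (((v.1 : ℝ) - u.1) - ((y.1 : ℝ) - x.1)),
      sq_nonneg (((v.2 : ℝ) - u.2) - ((y.2 : ℝ) - x.2))]

lemma int_abs {n : ℤ} (h : n ≠ 0) : (1 : ℝ) ≤ |(n : ℝ)| := by
  have := Int.one_le_abs h
  exact_mod_cast this

/-- A bent segment avoids a point off its line. -/
lemma bend_avoid {u v w : ℤ × ℤ} (h : det3 u v w ≠ 0) {K δ t : ℝ} (hK : 1 ≤ K) (hl : len2 u v ≤ K)
    (hδ0 : 0 ≤ δ) (hδ : δ * K ≤ 1 / 4) (h0 : 0 ≤ t) (h1 : t ≤ 1) : bend u v δ t ≠ pt w := by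
  intro he
  have e := bend_cross_self u v δ t
  rw [he, pt_re, pt_im] at e
  have hq := quarter h0 h1
  have hs := small_mul hK hδ0 hδ hq.1 hq.2 (L := len2 u v) (by
    rw [abs_of_nonneg]
    · exact hl
    · unfold len2; positivity)
  have hd : ((det3 u v w : ℤ) : ℝ) = δ * (t * (1 - t)) * len2 u v := by
    rw [← e]; unfold det3; push_cast; ring
  have := int_abs h
  rw [hd] at this
  linarith

/-- Two bent segments, the ends of the second on one side of the first. -/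
lemma bend_side {u v x y : ℤ × ℤ} (h : 0 < det3 u v x * det3 u v y) {K δ δ' t s : ℝ} (hK : 1 ≤ K)
    (hl : len2 u v ≤ K) (hl' : len2 x y ≤ K)
    (hδ0 : 0 ≤ δ) (hδ : δ * K ≤ 1 / 4) (hδ0' : 0 ≤ δ') (hδ' : δ' * K ≤ 1 / 4)
    (h0 : 0 ≤ t) (h1 : t ≤ 1) (h0' : 0 ≤ s) (h1' : s ≤ 1) : bend u v δ t ≠ bend x y δ' s := by
  intro he
  have e := bend_cross_self u v δ t
  rw [he, bend_cross] at e
  have hq := quarter h0 h1
  have hq' := quarter h0' h1'
  have hs := small_mul hK hδ0 hδ hq.1 hq.2 (L := len2 u v) (by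
    rw [abs_of_nonneg]
    · exact hl
    · unfold len2; positivity)
  have hs' := small_mul hK hδ0' hδ' hq'.1 hq'.2 (dot_le hl hl')
  rw [abs_le] at hs hs'
  rcases pos_and_pos_or_neg_and_neg_of_mul_pos h with ⟨ha, hb⟩ | ⟨ha, hb⟩
  · have ha' : (1 : ℝ) ≤ (det3 u v x : ℝ) := by exact_mod_cast ha
    have hb' : (1 : ℝ) ≤ (det3 u v y : ℝ) := by exact_mod_cast hb
    have : (1 : ℝ) ≤ (1 - s) * (det3 u v x : ℝ) + s * (det3 u v y : ℝ) := by
      nlinarith
    linarith [hs.1, hs.2, hs'.1, hs'.2]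
  · have ha' : (det3 u v x : ℝ) ≤ -1 := by
      have : det3 u v x ≤ -1 := by omega
      exact_mod_cast this
    have hb' : (det3 u v y : ℝ) ≤ -1 := by
      have : det3 u v y ≤ -1 := by omega
      exact_mod_cast this
    have : (1 - s) * (det3 u v x : ℝ) + s * (det3 u v y : ℝ) ≤ -1 := by
      nlinarith
    linarith [hs.1, hs.2, hs'.1, hs'.2]

/-- Differences of points of two non-parallel bent segments. -/
lemma bend_diff {u v x y : ℤ × ℤ}
    (h : (v.1 - u.1) * (y.2 - x.2) - (v.2 - u.2) * (y.1 - x.1) ≠ 0)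
    {K δ δ' t s t' s' : ℝ} (hK : 1 ≤ K)
    (hl : len2 u v ≤ K) (hl' : len2 x y ≤ K)
    (hδ0 : 0 ≤ δ) (hδ : δ * K ≤ 1 / 4) (hδ0' : 0 ≤ δ') (hδ' : δ' * K ≤ 1 / 4)
    (ht0 : 0 ≤ t) (ht1 : t ≤ 1) (hs0 : 0 ≤ s) (hs1 : s ≤ 1)
    (ht0' : 0 ≤ t') (ht1' : t' ≤ 1) (hs0' : 0 ≤ s') (hs1' : s' ≤ 1)
    (he : bend u v δ t - bend x y δ' s = bend u v δ t' - bend x y δ' s') : t = t' ∧ s = s' := by
  have e1 := congrArg Complex.re he
  have e2 := congrArg Complex.im he
  simp only [Complex.sub_re, Complex.sub_im, bend_re, bend_im] at e1 e2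
  obtain ⟨dx, hdx⟩ : ∃ a : ℝ, a = (v.1 : ℝ) - u.1 := ⟨_, rfl⟩
  obtain ⟨dy, hdy⟩ : ∃ a : ℝ, a = (v.2 : ℝ) - u.2 := ⟨_, rfl⟩
  obtain ⟨ex, hex⟩ : ∃ a : ℝ, a = (y.1 : ℝ) - x.1 := ⟨_, rfl⟩
  obtain ⟨ey, hey⟩ : ∃ a : ℝ, a = (y.2 : ℝ) - x.2 := ⟨_, rfl⟩
  have hdot := dot_le hl hl'
  rw [← hdx, ← hdy, ← hex, ← hey] at hdot
  rw [← hdx, ← hdy, ← hex, ← hey] at e1 e2
  have hc : (1 : ℝ) ≤ |dx * ey - dy * ex| := by
    have := int_abs h
    rw [hdx, hdy, hex, hey]
    push_cast at this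
    exact this
  set α := δ * (1 - t - t') with hα
  set β := δ' * (1 - s - s') with hβ
  have hδs : δ ≤ 1 / 4 := by nlinarith
  have hδs' : δ' ≤ 1 / 4 := by nlinarith
  have hαa : |α| ≤ δ := by
    rw [hα, abs_mul, abs_of_nonneg hδ0]
    have : |1 - t - t'| ≤ 1 := by rw [abs_le]; constructor <;> linarith
    nlinarith
  have hβa : |β| ≤ δ' := by
    rw [hβ, abs_mul, abs_of_nonneg hδ0']
    have : |1 - s - s'| ≤ 1 := by rw [abs_le]; constructor <;> linarith
    nlinarith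
  have f1 : (t - t') * (dx - α * dy) = (s - s') * (ex - β * ey) := by
    rw [hα, hβ]; linear_combination e1
  have f2 : (t - t') * (dy + α * dx) = (s - s') * (ey + β * ex) := by
    rw [hα, hβ]; linear_combination e2
  set B := (dx * ey - dy * ex) * (1 + α * β) + (β - α) * (dx * ex + dy * ey) with hB
  have hB0 : B ≠ 0 := by
    intro hB1
    have h1 : |(dx * ey - dy * ex) * (1 + α * β)| = |(β - α) * (dx * ex + dy * ey)| := by
      have : (dx * ey - dy * ex) * (1 + α * β) = -((β - α) * (dx * ex + dy * ey)) := by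
        linarith
      rw [this, abs_neg]
    rw [abs_mul, abs_mul] at h1
    have h2 : |β - α| ≤ δ + δ' := by
      calc |β - α| ≤ |β| + |α| := abs_sub _ _
        _ ≤ δ + δ' := by linarith
    have h3 : |β - α| * |dx * ex + dy * ey| ≤ 1 / 2 := by
      calc |β - α| * |dx * ex + dy * ey| ≤ (δ + δ') * K :=
            mul_le_mul h2 hdot (abs_nonneg _) (by linarith)
        _ ≤ 1 / 2 := by linarith
    have h4 : 15 / 16 ≤ |1 + α * β| := by
      have : |α * β| ≤ 1 / 16 := by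
        rw [abs_mul]
        calc |α| * |β| ≤ 1 / 4 * (1 / 4) :=
              mul_le_mul (by linarith) (by linarith) (abs_nonneg _) (by norm_num)
          _ = 1 / 16 := by norm_num
      rw [abs_le] at this
      rw [abs_of_nonneg (by linarith)]
      linarith
    have h5 : 15 / 16 ≤ |dx * ey - dy * ex| * |1 + α * β| := by
      calc (15 / 16 : ℝ) = 1 * (15 / 16) := by ring
        _ ≤ _ := mul_le_mul hc h4 (by norm_num) (abs_nonneg _)
    linarith
  have g1 : (t - t') * B = 0 := by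
    rw [hB]
    linear_combination (ey + β * ex) * f1 - (ex - β * ey) * f2
  have g2 : (s - s') * B = 0 := by
    rw [hB]
    linear_combination (dy + α * dx) * f1 - (dx - α * dy) * f2
  constructor
  · rcases mul_eq_zero.1 g1 with h | h
    · linarith
    · exact absurd h hB0
  · rcases mul_eq_zero.1 g2 with h | h
    · linarith
    · exact absurd h hB0

lemma third_vertex : ∀ g : Fin 20, ∃ w : Fin 12, w ≠ src g ∧ w ≠ tgt g := by decide

lemma incident : ∀ w w' : Fin 12, w ≠ w' → ∃ g : Fin 20, (src g = w ∨ tgt g = w) ∧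
    w' ≠ src g ∧ w' ≠ tgt g := by decide

lemma other_end : ∀ g h : Fin 20, g ≠ h → ¬ Indep g h →
    (src g = src h ∧ tgt h ≠ src g ∧ tgt h ≠ tgt g) ∨
    (src g = tgt h ∧ src h ≠ src g ∧ src h ≠ tgt g) ∨
    (tgt g = src h ∧ tgt h ≠ src g ∧ tgt h ≠ tgt g) ∨
    (tgt g = tgt h ∧ src h ≠ src g ∧ src h ≠ tgt g) := by decide

lemma det3_left (a b : ℤ × ℤ) : det3 a b a = 0 := by unfold det3; ring

lemma det3_right (a b : ℤ × ℤ) : det3 a b b = 0 := by unfold det3; ring

lemma det3_same (a b : ℤ × ℤ) : det3 a a b = 0 := by unfold det3; ring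

section Main

variable (pos : Fin 12 → ℤ × ℤ)
  (h1 : ∀ g w, w ≠ src g → w ≠ tgt g → det3 (pos (src g)) (pos (tgt g)) (pos w) ≠ 0)

include h1

lemma pos_inj : Function.Injective pos := by
  intro w w' he
  by_contra hne
  obtain ⟨g, hg, ha, hb⟩ := incident w w' hne
  apply h1 g w' ha hb
  rw [← he]
  rcases hg with hg | hg
  · rw [← hg]; exact det3_left _ _
  · rw [← hg]; exact det3_right _ _

lemma pos_ends (g : Fin 20) : pos (src g) ≠ pos (tgt g) := by
  intro he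
  obtain ⟨w, ha, hb⟩ := third_vertex g
  apply h1 g w ha hb
  rw [← he]
  exact det3_same _ _

/-- Adjacent edges are not parallel. -/
lemma cross_adj {g h : Fin 20} (hne : g ≠ h) (hi : ¬ Indep g h) :
    ((pos (tgt g)).1 - (pos (src g)).1) * ((pos (tgt h)).2 - (pos (src h)).2) -
      ((pos (tgt g)).2 - (pos (src g)).2) * ((pos (tgt h)).1 - (pos (src h)).1) ≠ 0 := by
  intro hc
  rcases other_end g h hne hi with ⟨he, ha, hb⟩ | ⟨he, ha, hb⟩ | ⟨he, ha, hb⟩ | ⟨he, ha, hb⟩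
  · apply h1 g (tgt h) ha hb
    rw [← he] at hc
    unfold det3
    linarith
  · apply h1 g (src h) ha hb
    rw [← he] at hc
    unfold det3
    linarith
  · apply h1 g (tgt h) ha hb
    rw [← he] at hc
    unfold det3
    linarith
  · apply h1 g (src h) ha hb
    rw [← he] at hc
    unfold det3
    linarith

end Main

theorem straight_drawing (pos : Fin 12 → ℤ × ℤ) (X : Finset (Fin 20 × Fin 20))
    (h1 : ∀ g w, w ≠ src g → w ≠ tgt g → det3 (pos (src g)) (pos (tgt g)) (pos w) ≠ 0)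
    (h2 : ∀ g h, g < h → Indep g h → (g, h) ∈ X ∨
      0 < det3 (pos (src g)) (pos (tgt g)) (pos (src h)) * det3 (pos (src g)) (pos (tgt g)) (pos (tgt h)) ∨
      0 < det3 (pos (src h)) (pos (tgt h)) (pos (src g)) * det3 (pos (src h)) (pos (tgt h)) (pos (tgt g)))
    (m : Fin 20 → ℕ) :
    (G0.multiply m).cr ≤ ((∑ p ∈ X, m p.1 * m p.2 : ℕ) : ℕ∞) := by
  classical
  -- the constants
  obtain ⟨K, hK1, hKl⟩ : ∃ K : ℝ, 1 ≤ K ∧ ∀ g, len2 (pos (src g)) (pos (tgt g)) ≤ K := by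
    refine ⟨1 + ∑ g, len2 (pos (src g)) (pos (tgt g)), ?_, ?_⟩
    · have : 0 ≤ ∑ g, len2 (pos (src g)) (pos (tgt g)) :=
        Finset.sum_nonneg fun g _ => by unfold len2; positivity
      linarith
    · intro g
      have : len2 (pos (src g)) (pos (tgt g)) ≤ ∑ g, len2 (pos (src g)) (pos (tgt g)) :=
        Finset.single_le_sum (f := fun g => len2 (pos (src g)) (pos (tgt g)))
          (fun g _ => by unfold len2; positivity) (Finset.mem_univ g)
      linarith
  have hK0 : 0 < K := by linarith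
  obtain ⟨M, hM0, hM⟩ : ∃ M : ℝ, 0 < M ∧ ∀ g, ∀ i : Fin (m g), ((i : ℕ) : ℝ) + 1 ≤ M := by
    refine ⟨1 + ∑ g, (m g : ℝ), ?_, ?_⟩
    · have : 0 ≤ ∑ g, (m g : ℝ) := Finset.sum_nonneg fun g _ => by positivity
      linarith
    · intro g i
      have h3 : (m g : ℝ) ≤ ∑ g, (m g : ℝ) :=
        Finset.single_le_sum (f := fun g => (m g : ℝ)) (fun g _ => by positivity)
          (Finset.mem_univ g)
      have h4 : ((i : ℕ) : ℝ) + 1 ≤ m g := by exact_mod_cast i.2
      linarith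
  set δ : (Σ g : Fin 20, Fin (m g)) → ℝ := fun e => (((e.2 : ℕ) : ℝ) + 1) / (4 * K * M) with hδ
  have hδ0 : ∀ e, 0 ≤ δ e := fun e => by simp only [hδ]; positivity
  have hδK : ∀ e, δ e * K ≤ 1 / 4 := by
    intro e
    simp only [hδ]
    rw [div_mul_eq_mul_div, div_le_div_iff₀ (by positivity) (by norm_num)]
    have := hM e.1 e.2
    nlinarith
  have hδinj : ∀ g (i j : Fin (m g)), δ ⟨g, i⟩ = δ ⟨g, j⟩ → i = j := by
    intro g i j h
    simp only [hδ] at h
    have h5 : (4 * K * M) ≠ 0 := by positivity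
    rw [div_left_inj' h5] at h
    have h6 : ((i : ℕ) : ℝ) = ((j : ℕ) : ℝ) := by linarith
    exact Fin.ext (by exact_mod_cast h6)
  set arc : (Σ g : Fin 20, Fin (m g)) → ℝ → ℂ :=
    fun e t => bend (pos (src e.1)) (pos (tgt e.1)) (δ e) t with harc
  have hpinj := pos_inj pos h1
  have hends := pos_ends pos h1
  -- the drawing
  let D : (G0.multiply m).Drawing :=
    { pos := fun v => pt (pos v)
      pos_injective := pt_injective.comp hpinj
      arc := arc
      arc_continuousOn := fun e => (bend_continuous _ _ _).continuousOn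
      arc_injOn := by
        intro e t _ t' _ he
        exact (bend_same (hends e.1) he).1
      arc_ends := by
        intro e
        exact ⟨src e.1, tgt e.1, rfl, bend_zero _ _ _, bend_one _ _ _⟩
      arc_avoids := by
        intro e t ht v
        by_cases hs : v = src e.1
        · subst hs
          intro he
          have h3 : arc e t = bend (pos (src e.1)) (pos (tgt e.1)) (δ e) 0 := by
            rw [bend_zero]; exact he
          have := (bend_same (hends e.1) h3).1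
          exact ht.1.ne' this
        · by_cases hs' : v = tgt e.1
          · subst hs'
            intro he
            have h3 : arc e t = bend (pos (src e.1)) (pos (tgt e.1)) (δ e) 1 := by
              rw [bend_one]; exact he
            have := (bend_same (hends e.1) h3).1
            exact ht.2.ne this
          · exact bend_avoid (h1 e.1 v hs hs') hK1 (hKl e.1) (hδ0 e) (hδK e) ht.1.le ht.2.le }
  -- crossing pairs
  set X' := X.filter (fun p => ((pos (tgt p.1)).1 - (pos (src p.1)).1) *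
      ((pos (tgt p.2)).2 - (pos (src p.2)).2) -
      ((pos (tgt p.1)).2 - (pos (src p.1)).2) * ((pos (tgt p.2)).1 - (pos (src p.2)).1) ≠ 0)
    with hX'
  set T : Finset (Sym2 (Σ g : Fin 20, Fin (m g))) := X'.biUnion
    (fun p => (Finset.univ : Finset (Fin (m p.1) × Fin (m p.2))).image
      (fun ij => s(⟨p.1, ij.1⟩, ⟨p.2, ij.2⟩))) with hT
  have hTcard : T.card ≤ ∑ p ∈ X, m p.1 * m p.2 := by
    calc T.card ≤ ∑ p ∈ X', ((Finset.univ : Finset (Fin (m p.1) × Fin (m p.2))).image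
          (fun ij => (s(⟨p.1, ij.1⟩, ⟨p.2, ij.2⟩) : Sym2 (Σ g : Fin 20, Fin (m g))))).card :=
          Finset.card_biUnion_le
      _ ≤ ∑ p ∈ X', m p.1 * m p.2 := by
          apply Finset.sum_le_sum
          intro p _
          refine Finset.card_image_le.trans ?_
          simp
      _ ≤ ∑ p ∈ X, m p.1 * m p.2 :=
          Finset.sum_le_sum_of_subset (Finset.filter_subset _ _)
  -- key: a common interior point forces the pair into `X'`
  have key : ∀ (g h : Fin 20) (i : Fin (m g)) (j : Fin (m h)), g < h →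
      ∀ t ∈ Set.Ioo (0 : ℝ) 1, ∀ s ∈ Set.Ioo (0 : ℝ) 1, arc ⟨g, i⟩ t = arc ⟨h, j⟩ s →
      (g, h) ∈ X' := by
    intro g h i j hlt t ht s hs he
    by_cases hi : Indep g h
    · rcases h2 g h hlt hi with hX | hc | hc
      · rw [hX', Finset.mem_filter]
        refine ⟨hX, ?_⟩
        intro hcr
        -- parallel: both ends of `h` on the same side
        have ha := h1 g (src h) (fun h => hi.1 h.symm) (fun h => hi.2.2.1 h.symm)
        have e1 : det3 (pos (src g)) (pos (tgt g)) (pos (tgt h)) =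
            det3 (pos (src g)) (pos (tgt g)) (pos (src h)) := by
          unfold det3
          linarith
        have hpos : 0 < det3 (pos (src g)) (pos (tgt g)) (pos (src h)) *
            det3 (pos (src g)) (pos (tgt g)) (pos (tgt h)) := by
          rw [e1]
          exact mul_self_pos.2 ha
        exact bend_side hpos hK1 (hKl g) (hKl h) (hδ0 _) (hδK _) (hδ0 _) (hδK _)
          ht.1.le ht.2.le hs.1.le hs.2.le he
      · exact absurd he (bend_side hc hK1 (hKl g) (hKl h) (hδ0 _) (hδK _) (hδ0 _) (hδK _)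
          ht.1.le ht.2.le hs.1.le hs.2.le)
      · exact absurd he.symm (bend_side hc hK1 (hKl h) (hKl g) (hδ0 _) (hδK _) (hδ0 _) (hδK _)
          hs.1.le hs.2.le ht.1.le ht.2.le)
    · exfalso
      have hcr := cross_adj pos h1 hlt.ne hi
      have main : ∀ t' s' : ℝ, (t' = 0 ∨ t' = 1) → 0 ≤ s' → s' ≤ 1 →
          arc ⟨g, i⟩ t' = arc ⟨h, j⟩ s' → False := by
        intro t' s' ht' hs0 hs1 he'
        have h3 := bend_diff hcr hK1 (hKl g) (hKl h) (hδ0 ⟨g, i⟩) (hδK ⟨g, i⟩)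
          (hδ0 ⟨h, j⟩) (hδK ⟨h, j⟩) ht.1.le ht.2.le hs.1.le hs.2.le
          (t' := t') (s' := s')
          (by rcases ht' with h | h <;> rw [h] <;> norm_num)
          (by rcases ht' with h | h <;> rw [h] <;> norm_num) hs0 hs1
          (by
            have e1 : bend (pos (src g)) (pos (tgt g)) (δ ⟨g, i⟩) t -
              bend (pos (src h)) (pos (tgt h)) (δ ⟨h, j⟩) s = 0 := sub_eq_zero.2 he
            have e2 : bend (pos (src g)) (pos (tgt g)) (δ ⟨g, i⟩) t' -
              bend (pos (src h)) (pos (tgt h)) (δ ⟨h, j⟩) s' = 0 := sub_eq_zero.2 he'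
            rw [e1, e2])
        rcases ht' with h | h
        · exact ht.1.ne' (h3.1.trans h)
        · exact ht.2.ne (h3.1.trans h)
      rcases other_end g h hlt.ne hi with ⟨he', -, -⟩ | ⟨he', -, -⟩ | ⟨he', -, -⟩ | ⟨he', -, -⟩
      · refine main 0 0 (Or.inl rfl) le_rfl zero_le_one ?_
        simp only [harc]
        rw [bend_zero, bend_zero, he']
      · refine main 0 1 (Or.inl rfl) zero_le_one le_rfl ?_
        simp only [harc]
        rw [bend_zero, bend_one, he']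
      · refine main 1 0 (Or.inr rfl) le_rfl zero_le_one ?_
        simp only [harc]
        rw [bend_one, bend_zero, he']
      · refine main 1 1 (Or.inr rfl) zero_le_one le_rfl ?_
        simp only [harc]
        rw [bend_one, bend_one, he']
  -- ordered description of a crossing
  have desc : ∀ x ∈ D.crossings, ∃ (g h : Fin 20) (i : Fin (m g)) (j : Fin (m h)),
      g < h ∧ x.1 = s(⟨g, i⟩, ⟨h, j⟩) ∧ (∃ t ∈ Set.Ioo (0 : ℝ) 1, arc ⟨g, i⟩ t = x.2) ∧
      ∃ s ∈ Set.Ioo (0 : ℝ) 1, arc ⟨h, j⟩ s = x.2 := by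
    rintro ⟨x, z⟩ ⟨hd, hx⟩
    induction x using Sym2.ind with
    | _ e f =>
    obtain ⟨g, i⟩ := e
    obtain ⟨h, j⟩ := f
    obtain ⟨t, ht, htz⟩ := hx ⟨g, i⟩ (Sym2.mem_mk_left _ _)
    obtain ⟨s, hs, hsz⟩ := hx ⟨h, j⟩ (Sym2.mem_mk_right _ _)
    simp only [Sym2.isDiag_iff_proj_eq] at hd
    rcases lt_trichotomy g h with hlt | heq | hlt
    · exact ⟨g, h, i, j, hlt, rfl, ⟨t, ht, htz⟩, ⟨s, hs, hsz⟩⟩
    · exfalso
      subst heq
      have h3 := bend_same (hends g) (htz.trans hsz.symm)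
      have h4 : t * (1 - t) ≠ 0 := by
        have := ht.1; have := ht.2
        have : 0 < t * (1 - t) := mul_pos ht.1 (by linarith [ht.2])
        exact this.ne'
      have h5 : δ ⟨g, i⟩ = δ ⟨g, j⟩ := by
        rcases mul_eq_zero.1 h3.2 with h | h
        · linarith
        · exact absurd h h4
      exact hd (by rw [hδinj g i j h5])
    · exact ⟨h, g, j, i, hlt, Sym2.eq_swap, ⟨s, hs, hsz⟩, ⟨t, ht, htz⟩⟩
  have hsub : Prod.fst '' D.crossings ⊆ (T : Set (Sym2 (Σ g : Fin 20, Fin (m g)))) := by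
    rintro _ ⟨x, hx, rfl⟩
    obtain ⟨g, h, i, j, hlt, he, ⟨t, ht, htz⟩, ⟨s, hs, hsz⟩⟩ := desc x hx
    have h3 := key g h i j hlt t ht s hs (htz.trans hsz.symm)
    rw [Finset.mem_coe, hT, Finset.mem_biUnion]
    refine ⟨(g, h), h3, ?_⟩
    rw [Finset.mem_image]
    exact ⟨(i, j), Finset.mem_univ _, he.symm⟩
  have hinj : Set.InjOn Prod.fst D.crossings := by
    intro x hx y hy hxy
    obtain ⟨g, h, i, j, hlt, he, ⟨t, ht, htz⟩, ⟨s, hs, hsz⟩⟩ := desc x hx
    obtain ⟨g', h', i', j', hlt', he', ⟨t', ht', htz'⟩, ⟨s', hs', hsz'⟩⟩ := desc y hy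
    have h3 := key g h i j hlt t ht s hs (htz.trans hsz.symm)
    rw [hX', Finset.mem_filter] at h3
    -- use the description of `y` with the edges of `x`
    have hye : ∀ e ∈ x.1, ∃ t ∈ Set.Ioo (0 : ℝ) 1, arc e t = y.2 := by
      intro e hex
      rw [hxy] at hex
      exact hy.2 e hex
    obtain ⟨t1, ht1, htz1⟩ := hye ⟨g, i⟩ (by rw [he]; exact Sym2.mem_mk_left _ _)
    obtain ⟨s1, hs1, hsz1⟩ := hye ⟨h, j⟩ (by rw [he]; exact Sym2.mem_mk_right _ _)
    have h4 := bend_diff h3.2 hK1 (hKl g) (hKl h) (hδ0 ⟨g, i⟩) (hδK ⟨g, i⟩)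
      (hδ0 ⟨h, j⟩) (hδK ⟨h, j⟩) ht.1.le ht.2.le hs.1.le hs.2.le
      ht1.1.le ht1.2.le hs1.1.le hs1.2.le
      (by
        have e1 : bend (pos (src g)) (pos (tgt g)) (δ ⟨g, i⟩) t -
          bend (pos (src h)) (pos (tgt h)) (δ ⟨h, j⟩) s = 0 := sub_eq_zero.2 (htz.trans hsz.symm)
        have e2 : bend (pos (src g)) (pos (tgt g)) (δ ⟨g, i⟩) t1 -
          bend (pos (src h)) (pos (tgt h)) (δ ⟨h, j⟩) s1 = 0 :=
          sub_eq_zero.2 (htz1.trans hsz1.symm)
        rw [e1, e2])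
    refine Prod.ext hxy ?_
    rw [← htz, ← htz1, h4.1]
  unfold MGraph.cr
  refine (iInf_le _ D).trans ?_
  calc D.crossings.encard = (Prod.fst '' D.crossings).encard := (hinj.encard_image).symm
    _ ≤ (T : Set (Sym2 (Σ g : Fin 20, Fin (m g)))).encard := Set.encard_le_encard hsub
    _ = (T.card : ℕ∞) := Set.encard_coe_eq_coe_finsetCard T
    _ ≤ ((∑ p ∈ X, m p.1 * m p.2 : ℕ) : ℕ∞) := by exact_mod_cast hTcard

end Pool.Agent.Helper69.KC
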