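import Pool.Agent.Helper94.KC.GoalsC

/-!
# Packet KC-MZ: the shortest cycle which does not bound
-/

set_option autoImplicit false

namespace Pool.Agent.Helper28.KC

open scoped Classical
open Finset Pool.Agent.Helper94.KC

theorem sk_le_gr {V : Type} [Fintype V] (T : Finset (Finset V)) : sk T ≤ gr (ed T) := by
  intro u v h
  obtain ⟨hne, t, ht, hu, hv⟩ := h
  refine ⟨hne, ?_⟩
  unfold ed
  rw [Finset.mem_filter]
  refine ⟨Finset.mem_univ _, Finset.card_pair hne, t, ht, ?_⟩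
  intro a ha
  rcases Finset.mem_insert.1 ha with rfl | ha
  · exact hu
  · rw [Finset.mem_singleton.1 ha]
    exact hv

theorem mz (hEV : StmtEV) (hCN2 : StmtCN2) (hRK : StmtRK) : StmtMZ := by
  intro V _ T hT hchi c hEW
  obtain ⟨-, -, -, hcyc, -, -⟩ := hEV V T hT
  have hnev : Nonempty V := hT.conn.nonempty
  have h1 : ∃ z : Finset (Finset V), z ⊆ ed T ∧ Even2 z ∧ ¬ Bounds T z := by
    by_contra hcon
    push Not at hcon
    have hrk := (hRK V T hT Finset.univ (ed T) T Finset.univ_nonempty (Finset.Subset.refl _)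
      (fun e _ => Finset.subset_univ e) (Finset.Subset.refl _) (fun t _ e he _ => he)
      (fun u _ v _ => (hT.conn.preconnected u v).mono (sk_le_gr T))).1
      (fun z hz hz2 => hcon z hz hz2)
    unfold chi at hchi
    rw [Finset.card_univ] at hrk
    omega
  have h2 : ((ed T).powerset.filter (fun z => Even2 z ∧ ¬ Bounds T z)).Nonempty := by
    obtain ⟨z, hz, hz2, hzb⟩ := h1
    exact ⟨z, Finset.mem_filter.2 ⟨Finset.mem_powerset.2 hz, hz2, hzb⟩⟩
  obtain ⟨z, hzm, hmin⟩ := Finset.exists_min_image _ (fun z => z.card) h2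
  obtain ⟨hz, hz2, hzb⟩ := Finset.mem_filter.1 hzm
  rw [Finset.mem_powerset] at hz
  obtain ⟨x, w, hw, hwz, hwb⟩ := hCN2 V T hT z hz hz2 hzb
  obtain ⟨hw2, hwc, hwe⟩ := hcyc x w hw
  refine ⟨x, w, ⟨hw, hwb, ?_⟩, ?_⟩
  · intro z' hz' hz2' hzb'
    have h3 := hmin z' (Finset.mem_filter.2 ⟨Finset.mem_powerset.2 hz', hz2', hzb'⟩)
    have h4 := Finset.card_le_card hwz
    rw [hwc] at h4
    exact h4.trans h3
  · by_contra hlt
    push Not at hlt
    obtain ⟨D, hD⟩ := hEW x w hw hlt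
    exact hwb ⟨D, hD.sub, hD.bdy⟩

end Pool.Agent.Helper28.KC
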